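import Pool.Agent.TH949.UL.GLn

/-! The least small trace for `GL_n` over a number field, with ramification: the general theorem. -/

set_option autoImplicit false

namespace Pool.Agent.Y725.UG

open NumberField IsDedekindDomain Filter Topology
open Pool.Agent.W189.TP (DS)
open Pool.Agent.TH861.GL3 (PL qq two_le_qq qq_pos one_lt_qq)
open Pool.Agent.TH949.LT
open Pool.Agent.TH949.UL

universe u

open scoped Classical in
/-- What is used of the local parameters: at `v ∈ S` the `β v i` are the reciprocal roots of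
`L(s, π_v × π~_v) / ζ_v(s)`; `T` is the set of the pairs `(v, i)` for which the factor is removed. -/
structure LocT {K : Type u} [Field K] [NumberField K] {S : Finset (HeightOneSpectrum (𝓞 K))} {n m : ℕ}
    (α : PL S → Fin n → ℂ) (β : HeightOneSpectrum (𝓞 K) → Fin m → ℂ)
    (T : Finset (HeightOneSpectrum (𝓞 K) × Fin m)) : Prop where
  bound : ∀ v i, ‖α v i‖ < (qq v.1 : ℝ) ^ (1 / 2 : ℝ)
  ramified : ∀ v ∈ S, ∀ i, ‖β v i‖ < (qq v : ℝ)
  removed : ∀ x ∈ T, x.1 ∈ S ∧ ‖β x.1 x.2‖ = 1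
  nonneg : ∀ v ∈ S, ∀ k : ℕ, ∃ c : ℝ, 0 ≤ c ∧ ∑ i, (if (v, i) ∈ T then 0 else β v i ^ (k + 1)) = (c : ℂ)

theorem gln_least (K : Type u) [Field K] [NumberField K] (n m N : ℕ) {D : ℂ → ℂ} {CD : ℝ} (hD : Den D CD)
    {ε : ℝ} (hε : 0 < ε) :
    ∃ A : ℝ, 0 < A ∧ ∀ (S : Finset (HeightOneSpectrum (𝓞 K))) (α : PL S → Fin n → ℂ)
      (β : HeightOneSpectrum (𝓞 K) → Fin m → ℂ) (T : Finset (HeightOneSpectrum (𝓞 K) × Fin m))
      (κ : Fin N → ℂ) (Q : ℝ) (G : ℂ → ℂ),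
      LocT α β T → LData N κ Q G → (∃ j, κ j = 0) →
      (∀ s : ℂ, 5 / 2 ≤ s.re → G s * ∏ v ∈ S, ∏ i, (1 - β v i * ((qq v : ℕ) : ℂ) ^ (-s)) =
        D s * Complex.exp (logAdn α s)) →
      ∃ (v : PL S) (k : ℕ), 1 ≤ k ∧
        (qq v.1 : ℝ) ^ k ≤ A * (Q ^ 2 * PK κ * ∏ x ∈ T, (qq x.1 : ℝ)) ^ (1 + ε) ∧
        ‖∑ i, α v i ^ k‖ < 1 := by
  classical
  obtain ⟨A, hA0, hA⟩ := euler.{u} K N m hD (B := (n : ℝ) ^ 2 + m + 1) (by positivity) hε
  refine ⟨A, hA0, fun S α β T κ Q G h hG hκ hE => ?_⟩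
  set β' : HeightOneSpectrum (𝓞 K) → Fin m → ℂ := fun v i => if (v, i) ∈ T then 0 else β v i with hβ'
  have hpow : ∀ v k, ∑ i, β' v i ^ (k + 1) = ∑ i, (if (v, i) ∈ T then 0 else β v i ^ (k + 1)) := by
    intro v k
    refine Finset.sum_congr rfl fun i _ => ?_
    rw [hβ']
    simp only
    split_ifs
    · exact zero_pow (Nat.succ_ne_zero k)
    · rfl
  have hL : Loc α β' := by
    refine ⟨h.bound, fun v hv i => ?_, fun v hv k => ?_⟩
    · rw [hβ']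
      simp only
      split_ifs
      · rw [norm_zero]
        exact qq_pos v
      · exact h.ramified v hv i
    · obtain ⟨c, hc, hc2⟩ := h.nonneg v hv k
      refine ⟨c, hc, ?_⟩
      rw [hpow]
      simp only [← hc2]
  obtain ⟨x, hx, hxl⟩ := hA (dall α β') κ Q G T (fun x => β x.1 x.2) (fun x hx => (h.removed x hx).2) hG hκ
    (dall_le hL) (fun s hs => by
      have h1 := hE s hs
      have h2 := exp_all hL hs
      have h3 : ∏ v ∈ S, ∏ i, (1 - β v i * ((qq v : ℕ) : ℂ) ^ (-s)) =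
          (∏ v ∈ S, ∏ i, (1 - β' v i * ((qq v : ℕ) : ℂ) ^ (-s))) *
            ∏ x ∈ T, (1 - β x.1 x.2 * ((qq x.1 : ℕ) : ℂ) ^ (-s)) := by
        rw [← Finset.prod_product' S Finset.univ (fun v i => 1 - β v i * ((qq v : ℕ) : ℂ) ^ (-s)),
          ← Finset.prod_product' S Finset.univ (fun v i => 1 - β' v i * ((qq v : ℕ) : ℂ) ^ (-s))]
        have hsub : T ⊆ S ×ˢ Finset.univ := fun x hx => Finset.mem_product.2 ⟨(h.removed x hx).1, Finset.mem_univ _⟩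
        have h4 : ∏ x ∈ T, (1 - β x.1 x.2 * ((qq x.1 : ℕ) : ℂ) ^ (-s)) =
            ∏ x ∈ S ×ˢ Finset.univ, if x ∈ T then (1 - β x.1 x.2 * ((qq x.1 : ℕ) : ℂ) ^ (-s)) else 1 := by
          rw [Finset.prod_ite_mem, Finset.inter_eq_right.2 hsub]
        rw [h4, ← Finset.prod_mul_distrib]
        refine Finset.prod_congr rfl fun x _ => ?_
        rw [hβ']
        simp only
        split_ifs <;> simp
      have hne : ∏ v ∈ S, ∏ i, (1 - β' v i * ((qq v : ℕ) : ℂ) ^ (-s)) ≠ 0 := by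
        intro h0
        rw [h0, mul_zero] at h2
        exact Complex.exp_ne_zero _ h2.symm
      rw [h3, ← h2] at h1
      have h5 : (G s * ∏ x ∈ T, (1 - β x.1 x.2 * ((qq x.1 : ℕ) : ℂ) ^ (-s))) *
          (∏ v ∈ S, ∏ i, (1 - β' v i * ((qq v : ℕ) : ℂ) ^ (-s))) =
          (D s * Complex.exp (DS (dall α β') LV s)) *
          (∏ v ∈ S, ∏ i, (1 - β' v i * ((qq v : ℕ) : ℂ) ^ (-s))) := by
        linear_combination h1
      exact mul_right_cancel₀ hne h5)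
  by_cases hxS : x.1 ∈ S
  · exfalso
    obtain ⟨v, k⟩ := x
    rw [dall_S hxS] at hx
    obtain ⟨c, hc, hc2⟩ := hL.ramified_nonneg v hxS k
    rw [hc2, Complex.ofReal_re] at hx
    have : 0 ≤ c / ((k : ℝ) + 1) := by positivity
    linarith
  · obtain ⟨v, k⟩ := x
    rw [dall_P hxS] at hx
    refine ⟨⟨v, hxS⟩, k + 1, by omega, hxl, ?_⟩
    by_contra hcon
    push Not at hcon
    have h1 : (1 : ℝ) ≤ ‖∑ i, α ⟨v, hxS⟩ i ^ (k + 1)‖ ^ 2 := one_le_pow₀ hcon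
    have : 0 ≤ (‖∑ i, α ⟨v, hxS⟩ i ^ (k + 1)‖ ^ 2 - 1) / ((k : ℝ) + 1) := by
      apply div_nonneg <;> [linarith; positivity]
    linarith

end Pool.Agent.Y725.UG
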