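import Mathlib.NumberTheory.Padics.HeightOneSpectrum
import Pool.Agent.Y725.UG.Gen
import Pool.Agent.TH949.UL.DQ
import Pool.Agent.TH949.UL.GamS

/-! The least small trace for `GL_n` over `ℚ`, with ramification. -/

set_option autoImplicit false

namespace Pool.Agent.Y725.UG

open NumberField IsDedekindDomain Filter Topology Complex
open Pool.Agent.TH861.GL3 (PL qq)
open Pool.Agent.TH949.LT
open Pool.Agent.TH949.UL

/-- The function `F(s) = s (s - 1) Γ_ℝ(s) L(s, Π × Π~)`. -/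
theorem gdata {N : ℕ} {κ : Fin N → ℂ} {Q : ℝ} {ω : ℂ} {G Ξ : ℂ → ℂ} (hQ : 1 ≤ Q) (hω : ‖ω‖ = 1)
    (hconj : Multiset.map (fun j => (starRingEnd ℂ) (κ j)) Finset.univ.val = Multiset.map κ Finset.univ.val)
    (hre : ∀ j, -1 < (κ j).re) (hG : Differentiable ℂ G) (hΞ : Differentiable ℂ Ξ)
    (hgr : ∀ a b : ℝ, ∃ C A : ℝ, ∀ s : ℂ, a ≤ s.re → s.re ≤ b → ‖G s‖ ≤ C * (1 + |s.im|) ^ A)
    (hΞe : ∀ s : ℂ, 1 < s.re → Ξ s = s * G s * ((Q : ℂ) ^ s * Gammaℝ s * ∏ j, Gammaℝ (s + κ j)))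
    (hfe : ∀ s : ℂ, Ξ (1 - s) = ω * Ξ s) :
    ∃ F : ℂ → ℂ, LData N κ Q F ∧ ∀ s : ℂ, 1 < s.re → F s = s * G s * Gammaℝ s := by
  have hQ0 : (Q : ℂ) ≠ 0 := by exact_mod_cast (by linarith : Q ≠ 0)
  set P : ℂ → ℂ := fun s => (Q : ℂ) ^ (-s) * ∏ j, (Gammaℝ (s + κ j))⁻¹ with hP
  have hPd : Differentiable ℂ P := by
    refine Differentiable.mul ?_ (Differentiable.fun_finsetProd fun x _ => ?_)
    · intro s
      exact (differentiableAt_id.neg).const_cpow (Or.inl hQ0)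
    · exact Complex.differentiable_Gammaℝ_inv.comp (differentiable_id.add_const _)
  have hGne : ∀ s : ℂ, 1 < s.re → ∀ j, Gammaℝ (s + κ j) ≠ 0 := by
    intro s hs j
    refine Complex.Gammaℝ_ne_zero_of_re_pos ?_
    rw [add_re]
    linarith [hre j]
  have hcancel : ∀ s : ℂ, 1 < s.re → P s * ((Q : ℂ) ^ s * ∏ j, Gammaℝ (s + κ j)) = 1 := by
    intro s hs
    rw [hP]
    simp only
    have h1 : (Q : ℂ) ^ (-s) * (Q : ℂ) ^ s = 1 := by
      rw [← Complex.cpow_add _ _ hQ0]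
      simp
    have h2 : (∏ j, (Gammaℝ (s + κ j))⁻¹) * ∏ j, Gammaℝ (s + κ j) = 1 := by
      rw [← Finset.prod_mul_distrib]
      exact Finset.prod_eq_one fun x _ => inv_mul_cancel₀ (hGne s hs x)
    linear_combination h2 * ((Q : ℂ) ^ (-s) * (Q : ℂ) ^ s) + h1
  have hid1 : ∀ s : ℂ, 1 < s.re → Ξ s * P s = s * G s * Gammaℝ s := by
    intro s hs
    rw [hΞe s hs]
    linear_combination (s * G s * Gammaℝ s) * hcancel s hs
  have hid2 : ∀ s : ℂ, Ξ s * P s * (Gammaℝ s)⁻¹ = s * G s * (Gammaℝ s * (Gammaℝ s)⁻¹) := by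
    intro s
    have hd1 : Differentiable ℂ fun s => Ξ s * P s * (Gammaℝ s)⁻¹ :=
      (hΞ.mul hPd).mul Complex.differentiable_Gammaℝ_inv
    have hd2 : Differentiable ℂ fun s => s * G s := differentiable_id.mul hG
    have h1 : (fun s => Ξ s * P s * (Gammaℝ s)⁻¹) = fun s => s * G s := by
      refine AnalyticOnNhd.eq_of_eventuallyEq (z₀ := 2) (fun z _ => hd1.analyticAt z)
        (fun z _ => hd2.analyticAt z) ?_
      have hopen : IsOpen {s : ℂ | 1 < s.re} := isOpen_lt continuous_const Complex.continuous_re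
      refine Filter.eventually_of_mem (hopen.mem_nhds (by norm_num : (2 : ℂ) ∈ {s : ℂ | 1 < s.re})) fun s hs => ?_
      have hg : Gammaℝ s ≠ 0 := Complex.Gammaℝ_ne_zero_of_re_pos (by
        have : 1 < s.re := hs
        linarith)
      simp only
      rw [hid1 s hs, mul_assoc, mul_inv_cancel₀ hg, mul_one]
    have h2 := congrFun h1 s
    by_cases hg : Gammaℝ s = 0
    · rw [hg]
      simp
    · rw [h2, mul_inv_cancel₀ hg, mul_one]
  refine ⟨fun s => Ξ s * P s, ⟨hQ, hconj, hre, hΞ.mul hPd, ?_,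
    Ξ, ω, hω, hΞ, fun s hs => ?_, hfe⟩, hid1⟩
  · -- growth
    intro a b
    obtain ⟨C1, A1, hC1⟩ := hgr a b
    obtain ⟨C2, hC20, hC2⟩ := gr_strip a b
    have hcont : Continuous fun s => Ξ s * P s := (hΞ.mul hPd).continuous
    obtain ⟨C3, hC3⟩ := (isCompact_Icc (a := a) (b := b)).reProdIm (isCompact_Icc (a := (-1 : ℝ)) (b := 1))
      |>.exists_bound_of_continuousOn hcont.continuousOn
    obtain ⟨m, hm⟩ := exists_nat_ge (|A1| + 1)
    refine ⟨|C3| + (|a| + |b| + 1) * |C1| * C2, m, fun s h1 h2 => ?_⟩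
    have hone : (1 : ℝ) ≤ 1 + |s.im| := by linarith [abs_nonneg s.im]
    have hpow : (1 : ℝ) ≤ (1 + |s.im|) ^ m := one_le_pow₀ hone
    rcases le_or_gt |s.im| 1 with h3 | h3
    · have h4 := hC3 s ⟨⟨h1, h2⟩, abs_le.1 h3⟩
      have h5 : 0 ≤ (|a| + |b| + 1) * |C1| * C2 := by positivity
      calc ‖Ξ s * P s‖ ≤ |C3| := h4.trans (le_abs_self _)
        _ ≤ (|C3| + (|a| + |b| + 1) * |C1| * C2) * 1 := by linarith
        _ ≤ _ := mul_le_mul_of_nonneg_left hpow (by positivity)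
    · have him : s.im ≠ 0 := by
        intro h0
        rw [h0, abs_zero] at h3
        linarith
      have hg : Gammaℝ s ≠ 0 := by
        rw [Ne, Complex.Gammaℝ_eq_zero_iff]
        rintro ⟨k, hk⟩
        apply him
        rw [hk]
        simp
      have h4 : Ξ s * P s = s * G s * Gammaℝ s := by
        have h5 := hid2 s
        rw [mul_inv_cancel₀ hg, mul_one] at h5
        rw [← h5]
        field_simp
      rw [h4, norm_mul, norm_mul]
      have h5 : ‖s‖ ≤ (|a| + |b| + 1) * (1 + |s.im|) := by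
        have h6 := Complex.norm_le_abs_re_add_abs_im s
        have h7 : |s.re| ≤ |a| + |b| := by
          rw [abs_le]
          constructor
          · linarith [neg_abs_le a, abs_nonneg b]
          · linarith [le_abs_self b, abs_nonneg a]
        have h8 : 0 ≤ (|a| + |b|) * |s.im| := by positivity
        nlinarith
      have h6 : ‖G s‖ ≤ |C1| * (1 + |s.im|) ^ (|A1|) := by
        refine (hC1 s h1 h2).trans (mul_le_mul (le_abs_self _)
          (Real.rpow_le_rpow_of_exponent_le hone (le_abs_self _)) (Real.rpow_nonneg (by linarith) _) (abs_nonneg _))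
      have h7 := hC2 s h1 h2 h3.le
      have h8 : (1 + |s.im|) * (1 + |s.im|) ^ (|A1|) ≤ (1 + |s.im|) ^ m := by
        rw [← Real.rpow_natCast (1 + |s.im|) m]
        calc (1 + |s.im|) * (1 + |s.im|) ^ (|A1|) = (1 + |s.im|) ^ (|A1| + 1) := by
              rw [Real.rpow_add (by linarith), Real.rpow_one]; ring
          _ ≤ _ := Real.rpow_le_rpow_of_exponent_le hone hm
      have hX : 0 ≤ (1 + |s.im|) ^ (|A1|) := Real.rpow_nonneg (by linarith) _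
      calc ‖s‖ * ‖G s‖ * ‖Gammaℝ s‖ ≤ ((|a| + |b| + 1) * (1 + |s.im|)) * (|C1| * (1 + |s.im|) ^ (|A1|)) * C2 := by
            refine mul_le_mul (mul_le_mul h5 h6 (norm_nonneg _) (by positivity)) h7 (norm_nonneg _) (by positivity)
        _ = (|a| + |b| + 1) * |C1| * C2 * ((1 + |s.im|) * (1 + |s.im|) ^ (|A1|)) := by ring
        _ ≤ (|a| + |b| + 1) * |C1| * C2 * (1 + |s.im|) ^ m := mul_le_mul_of_nonneg_left h8 (by positivity)
        _ ≤ _ := mul_le_mul_of_nonneg_right (by linarith [abs_nonneg C3]) (by positivity)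
  · have h1 := hcancel s (by linarith)
    linear_combination (-Ξ s) * h1

/-! ## The places of `ℚ` -/

/-- the prime number of a finite place of `ℚ` -/
noncomputable def ee : HeightOneSpectrum (𝓞 ℚ) ≃ Nat.Primes := Rat.HeightOneSpectrum.primesEquiv

theorem qq_eq (v : HeightOneSpectrum (𝓞 ℚ)) : qq v = (ee v : ℕ) := by
  have h1 : (ee v : ℕ) = Rat.HeightOneSpectrum.natGenerator v := rfl
  have h2 := Rat.HeightOneSpectrum.span_natGenerator v
  have h3 : Ideal.absNorm v.asIdeal =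
      Ideal.absNorm (v.asIdeal.map (Rat.IsIntegralClosure.intEquiv (𝓞 ℚ))) := by
    rw [Ideal.absNorm_apply, Ideal.absNorm_apply, Submodule.cardQuot_apply, Submodule.cardQuot_apply]
    exact Nat.card_congr (Ideal.quotientEquiv v.asIdeal _ (Rat.IsIntegralClosure.intEquiv (𝓞 ℚ)) rfl).toEquiv
  unfold qq
  rw [h1, h3, ← h2, Ideal.absNorm_span_singleton]
  simp

/-- the primes outside `S` -/
abbrev UP (S : Finset Nat.Primes) := {p : Nat.Primes // p ∉ S}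

/-- the logarithm of `L^S(s, Π × Π~) / ζ^S(s)` -/
noncomputable def logAdQ {S : Finset Nat.Primes} {n : ℕ} (α : UP S → Fin n → ℂ) (s : ℂ) : ℂ :=
  ∑' x : UP S × ℕ, (((‖∑ i, α x.1 i ^ (x.2 + 1)‖ ^ 2 - 1) / ((x.2 : ℝ) + 1) : ℝ) : ℂ) *
    (((x.1.1 : ℕ) : ℂ) ^ (-s)) ^ (x.2 + 1)

/-- what is used of the representation -/
structure CuspQ {S : Finset Nat.Primes} {n m N : ℕ} (α : UP S → Fin n → ℂ) (β : Nat.Primes → Fin m → ℂ)
    (T : Finset (Nat.Primes × Fin m)) (κ : Fin N → ℂ) (Q : ℝ) : Prop where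
  bound : ∀ p i, ‖α p i‖ < ((p.1 : ℕ) : ℝ) ^ (1 / 2 : ℝ)
  ramified : ∀ p ∈ S, ∀ i, ‖β p i‖ < ((p : ℕ) : ℝ)
  removed : ∀ x ∈ T, x.1 ∈ S ∧ ‖β x.1 x.2‖ = 1
  nonneg : ∀ p ∈ S, ∀ k : ℕ, ∃ c : ℝ, 0 ≤ c ∧
    ∑ i, Set.indicator {i | (p, i) ∉ T} (fun i => β p i ^ (k + 1)) i = (c : ℂ)
  one_le : 1 ≤ Q
  conj : Multiset.map (fun j => (starRingEnd ℂ) (κ j)) Finset.univ.val = Multiset.map κ Finset.univ.val
  re : ∀ j, -1 < (κ j).re
  zero : ∃ j, κ j = 0
  continuation : ∃ (G Ξ : ℂ → ℂ) (ω : ℂ), Differentiable ℂ G ∧ Differentiable ℂ Ξ ∧ ‖ω‖ = 1 ∧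
    (∀ s : ℂ, 1 < s.re → G s * ∏ p ∈ S, ∏ i, (1 - β p i * ((p : ℕ) : ℂ) ^ (-s)) =
      (s - 1) * riemannZeta s * Complex.exp (logAdQ α s)) ∧
    (∀ a b : ℝ, ∃ C A : ℝ, ∀ s : ℂ, a ≤ s.re → s.re ≤ b → ‖G s‖ ≤ C * (1 + |s.im|) ^ A) ∧
    (∀ s : ℂ, 1 < s.re → Ξ s = s * G s * ((Q : ℂ) ^ s * Gammaℝ s * ∏ j, Gammaℝ (s + κ j))) ∧
    ∀ s : ℂ, Ξ (1 - s) = ω * Ξ s

theorem rat_least (n m N : ℕ) {ε : ℝ} (hε : 0 < ε) :
    ∃ A : ℝ, 0 < A ∧ ∀ (S : Finset Nat.Primes) (α : UP S → Fin n → ℂ) (β : Nat.Primes → Fin m → ℂ)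
      (T : Finset (Nat.Primes × Fin m)) (κ : Fin N → ℂ) (Q : ℝ), CuspQ α β T κ Q →
      ∃ (p : UP S) (k : ℕ), 1 ≤ k ∧
        ((p.1 : ℕ) : ℝ) ^ k ≤ A * (Q ^ 2 * (∏ j, (1 + ‖κ j‖)) * ∏ x ∈ T, ((x.1 : ℕ) : ℝ)) ^ (1 + ε) ∧
        ‖∑ i, α p i ^ k‖ < 1 := by
  classical
  obtain ⟨CD, hCD⟩ := den_DQ
  obtain ⟨A, hA0, hA⟩ := gln_least ℚ n m N hCD hε
  refine ⟨A, hA0, fun S α β T κ Q h => ?_⟩
  obtain ⟨G, Ξ, ω, hG, hΞ, hω, hE, hgr, hΞe, hfe⟩ := h.continuation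
  obtain ⟨F, hF, hFG⟩ := gdata h.one_le hω h.conj h.re hG hΞ hgr hΞe hfe
  set S' : Finset (HeightOneSpectrum (𝓞 ℚ)) := S.map ee.symm.toEmbedding with hS'
  have hmem : ∀ v, v ∈ S' ↔ ee v ∈ S := by
    intro v
    rw [hS', Finset.mem_map_equiv, Equiv.symm_symm]
  set T' : Finset (HeightOneSpectrum (𝓞 ℚ) × Fin m) :=
    T.map (Equiv.prodCongr ee.symm (Equiv.refl (Fin m))).toEmbedding with hT'
  have hTm : ∀ v i, (v, i) ∈ T' ↔ (ee v, i) ∈ T := by
    intro v i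
    rw [hT', Finset.mem_map_equiv]
    rfl
  set α' : PL S' → Fin n → ℂ := fun v => α ⟨ee v.1, fun h => v.2 ((hmem v.1).2 h)⟩ with hα'
  set β' : HeightOneSpectrum (𝓞 ℚ) → Fin m → ℂ := fun v i => β (ee v) i with hβ'
  have hloc : LocT α' β' T' := by
    refine ⟨fun v i => ?_, fun v hv i => ?_, fun x hx => ?_, fun v hv k => ?_⟩
    · rw [qq_eq]
      exact h.bound _ i
    · rw [qq_eq]
      exact h.ramified _ ((hmem v).1 hv) i
    · obtain ⟨v, i⟩ := x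
      have h1 := h.removed _ ((hTm v i).1 hx)
      exact ⟨(hmem v).2 h1.1, h1.2⟩
    · obtain ⟨c, hc, hc2⟩ := h.nonneg _ ((hmem v).1 hv) k
      refine ⟨c, hc, ?_⟩
      rw [← hc2]
      refine Finset.sum_congr rfl fun i _ => ?_
      by_cases hi : (v, i) ∈ T'
      · rw [if_pos hi, Set.indicator_of_notMem (by simpa using (hTm v i).1 hi)]
      · rw [if_neg hi, Set.indicator_of_mem (by
          have := fun hh => hi ((hTm v i).2 hh)
          simpa using this)]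
  have hlog : ∀ s, logAdn α' s = logAdQ α s := by
    intro s
    unfold logAdn logAdQ
    set e2 : PL S' ≃ UP S := ee.subtypeEquiv (fun v => not_congr (hmem v)) with he2
    rw [← (Equiv.prodCongr e2 (Equiv.refl ℕ)).tsum_eq]
    refine tsum_congr fun x => ?_
    have h1 : (qq x.1.1 : ℕ) = (((e2 x.1).1 : Nat.Primes) : ℕ) := qq_eq x.1.1
    rw [h1]
    rfl
  have hprod : ∀ s : ℂ, ∏ v ∈ S', ∏ i, (1 - β' v i * ((qq v : ℕ) : ℂ) ^ (-s)) =
      ∏ p ∈ S, ∏ i, (1 - β p i * ((p : ℕ) : ℂ) ^ (-s)) := by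
    intro s
    rw [hS', Finset.prod_map]
    refine Finset.prod_congr rfl fun p _ => Finset.prod_congr rfl fun i _ => ?_
    have h1 : ee (ee.symm p) = p := ee.apply_symm_apply p
    have h2 : β' (ee.symm.toEmbedding p) i = β p i := by
      rw [hβ']
      simp [h1]
    have h3 : qq (ee.symm.toEmbedding p) = (p : ℕ) := by
      rw [qq_eq]
      simp [h1]
    rw [h2, h3]
  have hT'q : ∏ x ∈ T', (qq x.1 : ℝ) = ∏ x ∈ T, ((x.1 : ℕ) : ℝ) := by
    rw [hT', Finset.prod_map]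
    refine Finset.prod_congr rfl fun x _ => ?_
    rw [qq_eq]
    simp
  obtain ⟨v, k, hk, hle, hlt⟩ := hA S' α' β' T' κ Q F hloc hF h.zero (fun s hs => by
    have hs1 : 1 < s.re := by linarith
    have hne : s ≠ 1 := fun h0 => by rw [h0] at hs1; simp at hs1
    rw [hprod, hFG s hs1, hlog, DQ_eq' (by linarith) hne]
    linear_combination (s * Gammaℝ s) * hE s hs1)
  refine ⟨⟨ee v.1, fun h => v.2 ((hmem v.1).2 h)⟩, k, hk, ?_, hlt⟩
  rw [qq_eq, hT'q] at hle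
  exact hle

end Pool.Agent.Y725.UG
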