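import Pool.Agent.Y725.UG.Prod
import Pool.Agent.TH949.UL.DQ

/-! Several cuspidal representations of `GL_n` over a number field at once. -/

set_option autoImplicit false

namespace Pool.Agent.Y725.UG

open NumberField IsDedekindDomain Filter Topology
open Pool.Agent.W189.TP (DS)
open Pool.Agent.TH861.GL3 (PL qq two_le_qq qq_pos one_lt_qq)
open Pool.Agent.TH949.LT
open Pool.Agent.TH949.UL

universe u

open scoped Classical in
/-- the parameters with those in `T` replaced by zero -/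
noncomputable def cut {K : Type u} [Field K] [NumberField K] {m : ℕ} (β : HeightOneSpectrum (𝓞 K) → Fin m → ℂ)
    (T : Finset (HeightOneSpectrum (𝓞 K) × Fin m)) (v : HeightOneSpectrum (𝓞 K)) (i : Fin m) : ℂ :=
  if (v, i) ∈ T then 0 else β v i

section

variable {K : Type u} [Field K] [NumberField K] {S : Finset (HeightOneSpectrum (𝓞 K))} {n m : ℕ}
  {α : PL S → Fin n → ℂ} {β : HeightOneSpectrum (𝓞 K) → Fin m → ℂ}
  {T : Finset (HeightOneSpectrum (𝓞 K) × Fin m)}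

theorem loc_cut (h : LocT α β T) : Loc α (cut β T) := by
  classical
  refine ⟨h.bound, fun v hv i => ?_, fun v hv k => ?_⟩
  · unfold cut
    split_ifs
    · rw [norm_zero]
      exact qq_pos v
    · exact h.ramified v hv i
  · obtain ⟨c, hc, hc2⟩ := h.nonneg v hv k
    refine ⟨c, hc, ?_⟩
    rw [← hc2]
    refine Finset.sum_congr rfl fun i _ => ?_
    unfold cut
    by_cases hT : (v, i) ∈ T
    · rw [if_pos hT]
      rw [if_pos hT]
      exact zero_pow (Nat.succ_ne_zero k)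
    · rw [if_neg hT]
      rw [if_neg hT]

theorem single (h : LocT α β T) {G D : ℂ → ℂ} (hE : ∀ s : ℂ, 5 / 2 ≤ s.re →
    G s * ∏ v ∈ S, ∏ i, (1 - β v i * ((qq v : ℕ) : ℂ) ^ (-s)) = D s * Complex.exp (logAdn α s)) {s : ℂ}
    (hs : 5 / 2 ≤ s.re) :
    G s * ∏ x ∈ T, (1 - β x.1 x.2 * ((qq x.1 : ℕ) : ℂ) ^ (-s)) =
      D s * Complex.exp (DS (dall α (cut β T)) LV s) := by
  classical
  have hL := loc_cut h
  have h1 := hE s hs
  have h2 := exp_all hL hs
  have h3 : ∏ v ∈ S, ∏ i, (1 - β v i * ((qq v : ℕ) : ℂ) ^ (-s)) =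
      (∏ v ∈ S, ∏ i, (1 - cut β T v i * ((qq v : ℕ) : ℂ) ^ (-s))) *
        ∏ x ∈ T, (1 - β x.1 x.2 * ((qq x.1 : ℕ) : ℂ) ^ (-s)) := by
    rw [← Finset.prod_product' S Finset.univ (fun v i => 1 - β v i * ((qq v : ℕ) : ℂ) ^ (-s)),
      ← Finset.prod_product' S Finset.univ (fun v i => 1 - cut β T v i * ((qq v : ℕ) : ℂ) ^ (-s))]
    have hsub : T ⊆ S ×ˢ Finset.univ := fun x hx => Finset.mem_product.2 ⟨(h.removed x hx).1, Finset.mem_univ _⟩
    have h4 : ∏ x ∈ T, (1 - β x.1 x.2 * ((qq x.1 : ℕ) : ℂ) ^ (-s)) =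
        ∏ x ∈ S ×ˢ Finset.univ, if x ∈ T then (1 - β x.1 x.2 * ((qq x.1 : ℕ) : ℂ) ^ (-s)) else 1 := by
      rw [Finset.prod_ite_mem, Finset.inter_eq_right.2 hsub]
    rw [h4, ← Finset.prod_mul_distrib]
    refine Finset.prod_congr rfl fun x _ => ?_
    obtain ⟨v, i⟩ := x
    unfold cut
    by_cases hT : (v, i) ∈ T
    · rw [if_pos hT, if_pos hT]
      simp
    · rw [if_neg hT, if_neg hT]
      simp
  have hne : ∏ v ∈ S, ∏ i, (1 - cut β T v i * ((qq v : ℕ) : ℂ) ^ (-s)) ≠ 0 := by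
    intro h0
    rw [h0, mul_zero] at h2
    exact Complex.exp_ne_zero _ h2.symm
  rw [h3, ← h2] at h1
  refine mul_right_cancel₀ hne ?_
  linear_combination h1

end

/-- the pairs in the disjoint union of the sets `T i` -/
def emb {K : Type u} [Field K] [NumberField K] (m r : ℕ) :
    (Σ _ : Fin m, HeightOneSpectrum (𝓞 K) × Fin r) ↪ HeightOneSpectrum (𝓞 K) × Fin (m * r) :=
  ⟨fun p => (p.2.1, finProdFinEquiv (p.1, p.2.2)), fun p q h => by
    obtain ⟨i, v, j⟩ := p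
    obtain ⟨i', v', j'⟩ := q
    simp only [Prod.mk.injEq, EmbeddingLike.apply_eq_iff_eq] at h
    obtain ⟨h1, h2, h3⟩ := h
    subst h1 h2 h3
    rfl⟩

theorem gln_many (K : Type u) [Field K] [NumberField K] (n m r N : ℕ) {D : ℂ → ℂ} {CD : ℝ}
    (hD : Den (fun s => D s ^ m) CD) {ε : ℝ} (hε : 0 < ε) :
    ∃ A : ℝ, 0 < A ∧ ∀ (S : Finset (HeightOneSpectrum (𝓞 K))) (α : Fin m → PL S → Fin n → ℂ)
      (β : Fin m → HeightOneSpectrum (𝓞 K) → Fin r → ℂ) (T : Fin m → Finset (HeightOneSpectrum (𝓞 K) × Fin r))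
      (κ : Fin m → Fin N → ℂ) (Q : Fin m → ℝ) (G : Fin m → ℂ → ℂ),
      (∀ i, LocT (α i) (β i) (T i)) → (∀ i, LData N (κ i) (Q i) (G i)) → (∃ i j, κ i j = 0) →
      (∀ i, ∀ s : ℂ, 5 / 2 ≤ s.re →
        G i s * ∏ v ∈ S, ∏ j, (1 - β i v j * ((qq v : ℕ) : ℂ) ^ (-s)) =
          D s * Complex.exp (logAdn (α i) s)) →
      ∃ (v : PL S) (k : ℕ), 1 ≤ k ∧
        (qq v.1 : ℝ) ^ k ≤ A * (∏ i, (Q i ^ 2 * PK (κ i) * ∏ x ∈ T i, (qq x.1 : ℝ))) ^ (1 + ε) ∧
        ∑ i, ‖∑ j, α i v j ^ k‖ ^ 2 < m := by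
  classical
  obtain ⟨A, hA0, hA⟩ := euler.{u} K (m * N) (m * r) hD (B := m * ((n : ℝ) ^ 2 + r + 1))
    (by positivity) hε
  refine ⟨A, hA0, fun S α β T κ Q G h hG hκ hE => ?_⟩
  obtain ⟨κ', hL', hPK, hz⟩ := ldata_prod N m κ Q G hG
  have hL : ∀ i, Loc (α i) (cut (β i) (T i)) := fun i => loc_cut (h i)
  obtain ⟨x, hx, hxl⟩ := hA (fun x => ∑ i, dall (α i) (cut (β i) (T i)) x) κ' (∏ i, Q i)
    (fun s => ∏ i, G i s) ((Finset.univ.sigma T).map (emb m r))
    (fun x => β (finProdFinEquiv.symm x.2).1 x.1 (finProdFinEquiv.symm x.2).2)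
    (by
      intro x hx
      rw [Finset.mem_map] at hx
      obtain ⟨p, hp, rfl⟩ := hx
      rw [Finset.mem_sigma] at hp
      have := ((h p.1).removed p.2 hp.2).2
      simpa [emb] using this)
    hL' (hz hκ)
    (fun x => by
      calc |∑ i, dall (α i) (cut (β i) (T i)) x| ≤ ∑ i, |dall (α i) (cut (β i) (T i)) x| :=
            Finset.abs_sum_le_sum_abs _ _
        _ ≤ ∑ _i : Fin m, ((n : ℝ) ^ 2 + r + 1) * Real.exp (LV x) :=
            Finset.sum_le_sum fun i _ => dall_le (hL i) x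
        _ = _ := by
            rw [Finset.sum_const, Finset.card_univ, Fintype.card_fin, nsmul_eq_mul]
            ring)
    (fun s hs => by
      rw [Finset.prod_map, Finset.prod_sigma, ← Finset.prod_mul_distrib]
      have h1 : DS (fun x => ∑ i, dall (α i) (cut (β i) (T i)) x) LV s =
          ∑ i, DS (dall (α i) (cut (β i) (T i))) LV s := by
        unfold DS
        rw [← Summable.tsum_finsetSum fun i _ => summable_dall (hL i) hs]
        refine tsum_congr fun x => ?_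
        rw [Complex.ofReal_sum, Finset.sum_mul]
      have h2 : D s ^ m = ∏ _i : Fin m, D s := by
        rw [Finset.prod_const, Finset.card_univ, Fintype.card_fin]
      rw [h1, Complex.exp_sum, h2, ← Finset.prod_mul_distrib]
      refine Finset.prod_congr rfl fun i _ => ?_
      rw [← single (h i) (hE i) hs]
      congr 1
      refine Finset.prod_congr rfl fun x _ => ?_
      simp [emb])
  have hprod : (∏ i, Q i) ^ 2 * PK κ' * ∏ x ∈ (Finset.univ.sigma T).map (emb m r), (qq x.1 : ℝ) =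
      ∏ i, (Q i ^ 2 * PK (κ i) * ∏ x ∈ T i, (qq x.1 : ℝ)) := by
    rw [Finset.prod_map, Finset.prod_sigma, hPK, ← Finset.prod_pow, ← Finset.prod_mul_distrib,
      ← Finset.prod_mul_distrib]
    rfl
  rw [hprod] at hxl
  obtain ⟨v, k⟩ := x
  simp only at hx hxl
  by_cases hxS : v ∈ S
  · exfalso
    refine absurd hx (not_lt.2 (Finset.sum_nonneg fun i _ => ?_))
    rw [dall_S hxS]
    obtain ⟨c, hc, hc2⟩ := (hL i).ramified_nonneg v hxS k
    rw [hc2, Complex.ofReal_re]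
    positivity
  · refine ⟨⟨v, hxS⟩, k + 1, by omega, hxl, ?_⟩
    have h1 : ∀ i, dall (α i) (cut (β i) (T i)) (v, k) =
        (‖∑ j, α i ⟨v, hxS⟩ j ^ (k + 1)‖ ^ 2 - 1) / ((k : ℝ) + 1) := fun i => dall_P hxS k
    simp only [h1] at hx
    rw [← Finset.sum_div, Finset.sum_sub_distrib, Finset.sum_const, Finset.card_univ, Fintype.card_fin,
      nsmul_eq_mul, mul_one] at hx
    have hk : (0 : ℝ) < (k : ℝ) + 1 := by positivity
    rw [div_lt_iff₀ hk, zero_mul] at hx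
    linarith

theorem den_one_pow (m : ℕ) : Den (fun _ => (1 : ℂ) ^ m) 1 := by
  have h : (fun _ : ℂ => (1 : ℂ) ^ m) = fun _ => 1 := funext fun _ => one_pow m
  rw [h]
  exact den_one

theorem den_DQ_pow (m : ℕ) : ∃ CD : ℝ, Den (fun s => DQ s ^ m) CD := by
  obtain ⟨CD, h⟩ := den_DQ
  obtain ⟨C, hC0, hC⟩ := DQ_bound
  refine ⟨C ^ m, ?_⟩
  refine ⟨h.diff.pow m, fun s => ?_, fun x => pow_ne_zero _ (h.real_ne x), fun s hs => pow_ne_zero _ (h.right_ne s hs),
    fun s h1 h2 => ?_⟩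
  · rw [h.sym s]
  · rw [norm_pow]
    have h3 : ‖DQ s‖ ≤ C := hC s (abs_le.2 ⟨by linarith, by linarith⟩)
    calc ‖DQ s‖ ^ m ≤ C ^ m := pow_le_pow_left₀ (norm_nonneg _) h3 m
      _ = C ^ m * 1 := (mul_one _).symm
      _ ≤ _ := mul_le_mul_of_nonneg_left (Real.one_le_exp (abs_nonneg _)) (by positivity)

end Pool.Agent.Y725.UG
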