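import Pool.Agent.Y725.UG.Rat
import Pool.Agent.Y725.UG.Many

/-! Several cuspidal representations of `GL_n` over `ℚ` at once. -/

set_option autoImplicit false

namespace Pool.Agent.Y725.UG

open NumberField IsDedekindDomain Filter Topology Complex
open Pool.Agent.TH861.GL3 (PL qq)
open Pool.Agent.TH949.LT
open Pool.Agent.TH949.UL

theorem rat_many (n m r N : ℕ) {ε : ℝ} (hε : 0 < ε) :
    ∃ A : ℝ, 0 < A ∧ ∀ (S : Finset Nat.Primes) (α : Fin m → UP S → Fin n → ℂ)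
      (β : Fin m → Nat.Primes → Fin r → ℂ)
      (T : Fin m → Finset (Nat.Primes × Fin r)) (κ : Fin m → Fin N → ℂ) (Q : Fin m → ℝ), 0 < m →
      (∀ i, CuspQ (α i) (β i) (T i) (κ i) (Q i)) →
      ∃ (p : UP S) (k : ℕ), 1 ≤ k ∧
        ((p.1 : ℕ) : ℝ) ^ k ≤
          A * (∏ i, (Q i ^ 2 * (∏ j, (1 + ‖κ i j‖)) * ∏ x ∈ T i, ((x.1 : ℕ) : ℝ))) ^ (1 + ε) ∧
        ∑ i, ‖∑ j, α i p j ^ k‖ ^ 2 < m := by
  classical
  obtain ⟨CD, hCD⟩ := den_DQ_pow m
  obtain ⟨A, hA0, hA⟩ := gln_many ℚ n m r N hCD hε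
  refine ⟨A, hA0, fun S α β T κ Q hm h => ?_⟩
  choose G Ξ ω hG hΞ hω hE hgr hΞe hfe using fun i => (h i).continuation
  choose F hF hFG using fun i =>
    gdata (h i).one_le (hω i) (h i).conj (h i).re (hG i) (hΞ i) (hgr i) (hΞe i) (hfe i)
  set S' : Finset (HeightOneSpectrum (𝓞 ℚ)) := S.map ee.symm.toEmbedding with hS'
  have hmem : ∀ v, v ∈ S' ↔ ee v ∈ S := by
    intro v
    rw [hS', Finset.mem_map_equiv, Equiv.symm_symm]
  set T' : Fin m → Finset (HeightOneSpectrum (𝓞 ℚ) × Fin r) := fun l =>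
    (T l).map (Equiv.prodCongr ee.symm (Equiv.refl (Fin r))).toEmbedding with hT'
  have hTm : ∀ l v i, (v, i) ∈ T' l ↔ (ee v, i) ∈ T l := by
    intro l v i
    rw [hT', Finset.mem_map_equiv]
    rfl
  set α' : Fin m → PL S' → Fin n → ℂ := fun l v => α l ⟨ee v.1, fun h => v.2 ((hmem v.1).2 h)⟩ with hα'
  set β' : Fin m → HeightOneSpectrum (𝓞 ℚ) → Fin r → ℂ := fun l v i => β l (ee v) i with hβ'
  have hloc : ∀ l, LocT (α' l) (β' l) (T' l) := by
    intro l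
    refine ⟨fun v i => ?_, fun v hv i => ?_, fun x hx => ?_, fun v hv k => ?_⟩
    · rw [qq_eq]
      exact (h l).bound _ i
    · rw [qq_eq]
      exact (h l).ramified _ ((hmem v).1 hv) i
    · obtain ⟨v, i⟩ := x
      have h1 := (h l).removed _ ((hTm l v i).1 hx)
      exact ⟨(hmem v).2 h1.1, h1.2⟩
    · obtain ⟨c, hc, hc2⟩ := (h l).nonneg _ ((hmem v).1 hv) k
      refine ⟨c, hc, ?_⟩
      rw [← hc2]
      refine Finset.sum_congr rfl fun i _ => ?_
      by_cases hi : (v, i) ∈ T' l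
      · rw [if_pos hi, Set.indicator_of_notMem (by simpa using (hTm l v i).1 hi)]
      · rw [if_neg hi, Set.indicator_of_mem (by
          have := fun hh => hi ((hTm l v i).2 hh)
          simpa using this)]
  have hlog : ∀ l s, logAdn (α' l) s = logAdQ (α l) s := by
    intro l s
    unfold logAdn logAdQ
    set e2 : PL S' ≃ UP S := ee.subtypeEquiv (fun v => not_congr (hmem v)) with he2
    rw [← (Equiv.prodCongr e2 (Equiv.refl ℕ)).tsum_eq]
    refine tsum_congr fun x => ?_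
    have h1 : (qq x.1.1 : ℕ) = (((e2 x.1).1 : Nat.Primes) : ℕ) := qq_eq x.1.1
    rw [h1]
    rfl
  have hprod : ∀ l, ∀ s : ℂ, ∏ v ∈ S', ∏ i, (1 - β' l v i * ((qq v : ℕ) : ℂ) ^ (-s)) =
      ∏ p ∈ S, ∏ i, (1 - β l p i * ((p : ℕ) : ℂ) ^ (-s)) := by
    intro l s
    rw [hS', Finset.prod_map]
    refine Finset.prod_congr rfl fun p _ => Finset.prod_congr rfl fun i _ => ?_
    have h1 : ee (ee.symm p) = p := ee.apply_symm_apply p
    have h2 : β' l (ee.symm.toEmbedding p) i = β l p i := by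
      rw [hβ']
      simp [h1]
    have h3 : qq (ee.symm.toEmbedding p) = (p : ℕ) := by
      rw [qq_eq]
      simp [h1]
    rw [h2, h3]
  have hT'q : ∀ l, ∏ x ∈ T' l, (qq x.1 : ℝ) = ∏ x ∈ T l, ((x.1 : ℕ) : ℝ) := by
    intro l
    rw [hT', Finset.prod_map]
    refine Finset.prod_congr rfl fun x _ => ?_
    rw [qq_eq]
    simp
  obtain ⟨v, k, hk, hle, hlt⟩ := hA S' α' β' T' κ Q F hloc hF ⟨⟨0, hm⟩, (h ⟨0, hm⟩).zero⟩ (fun l s hs => by
    have hs1 : 1 < s.re := by linarith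
    have hne : s ≠ 1 := fun h0 => by rw [h0] at hs1; simp at hs1
    rw [hprod, hFG l s hs1, hlog, DQ_eq' (by linarith) hne]
    linear_combination (s * Gammaℝ s) * hE l s hs1)
  refine ⟨⟨ee v.1, fun h => v.2 ((hmem v.1).2 h)⟩, k, hk, ?_, hlt⟩
  rw [qq_eq] at hle
  simp only [hT'q] at hle
  exact hle

end Pool.Agent.Y725.UG
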