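import Mathlib

/-! Traces of powers of non-tempered unitary unramified representations of `GL_2`. -/

set_option autoImplicit false

namespace Pool.Agent.Y725.UG

theorem two_le_add_inv {x : ℝ} (hx : 0 < x) : 2 ≤ x + x⁻¹ := by
  have h1 : x * x⁻¹ = 1 := mul_inv_cancel₀ hx.ne'
  have h2 : 0 < x⁻¹ := inv_pos.2 hx
  nlinarith [sq_nonneg (x - x⁻¹)]

/-- if one of the parameters has absolute value different from one, then the other one is its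
conjugate inverse -/
theorem other {a : Fin 2 → ℂ} (hu : ∃ τ : Equiv.Perm (Fin 2), ∀ i, a (τ i) = ((starRingEnd ℂ) (a i))⁻¹)
    (h0 : ∀ i, a i ≠ 0) {i : Fin 2} (hi : ‖a i‖ ≠ 1) :
    a 0 = ((starRingEnd ℂ) (a 1))⁻¹ ∧ a 1 = ((starRingEnd ℂ) (a 0))⁻¹ := by
  obtain ⟨τ, hτ⟩ := hu
  have hfix : ∀ j, τ j = j → ‖a j‖ = 1 := by
    intro j hj
    have h1 := hτ j
    rw [hj] at h1
    have h2 : ‖a j‖ = ‖a j‖⁻¹ := by
      conv_lhs => rw [h1]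
      rw [norm_inv, RCLike.norm_conj]
    have h3 : 0 < ‖a j‖ := norm_pos_iff.2 (h0 j)
    have h4 : ‖a j‖ * ‖a j‖ = 1 := by
      nth_rewrite 1 [h2]
      exact inv_mul_cancel₀ h3.ne'
    nlinarith
  have two : ∀ x : Fin 2, x = 0 ∨ x = 1 := by decide
  have h1 : τ 0 = 1 := by
    by_contra h
    have h2 : τ 0 = 0 := (two (τ 0)).resolve_right h
    have h3 : τ 1 = 1 := by
      rcases two (τ 1) with h4 | h4
      · exact absurd (τ.injective (h4.trans h2.symm)) (by decide)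
      · exact h4
    have h4 := hfix 0 h2
    have h5 := hfix 1 h3
    refine hi ?_
    rcases two i with rfl | rfl
    · exact h4
    · exact h5
  have h2 : τ 1 = 0 := by
    rcases two (τ 1) with h4 | h4
    · exact h4
    · exact absurd (τ.injective (h4.trans h1.symm)) (by decide)
  have h3 := hτ 0
  have h4 := hτ 1
  rw [h1] at h3
  rw [h2] at h4
  exact ⟨h4, h3⟩

/-- the trace of a power of a non-tempered parameter -/
theorem temp_two {a : Fin 2 → ℂ} (h0 : ∀ i, a i ≠ 0)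
    (hu : ∃ τ : Equiv.Perm (Fin 2), ∀ i, a (τ i) = ((starRingEnd ℂ) (a i))⁻¹) {k : ℕ}
    (hk : ‖∑ i, a i ^ k‖ < 2) : ∀ i, ‖a i‖ = 1 := by
  intro i
  by_contra hi
  obtain ⟨h1, h2⟩ := other hu h0 hi
  have h3 : ∑ i, a i ^ k = a 0 ^ k + ((starRingEnd ℂ) (a 0 ^ k))⁻¹ := by
    rw [Fin.sum_univ_two, map_pow, ← inv_pow, ← h2]
  have h4 : 0 < ‖a 0 ^ k‖ := norm_pos_iff.2 (pow_ne_zero _ (h0 0))
  have h5 : a 0 ^ k + ((starRingEnd ℂ) (a 0 ^ k))⁻¹ = a 0 ^ k * ((1 + (‖a 0 ^ k‖ ^ 2)⁻¹ : ℝ) : ℂ) := by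
    have h6 : (starRingEnd ℂ) (a 0 ^ k) ≠ 0 := by
      rw [Ne, map_eq_zero]
      exact pow_ne_zero _ (h0 0)
    have h7 : a 0 ^ k * (starRingEnd ℂ) (a 0 ^ k) = ((‖a 0 ^ k‖ ^ 2 : ℝ) : ℂ) := by
      rw [Complex.mul_conj, Complex.normSq_eq_norm_sq]
    have h8 : ((‖a 0 ^ k‖ ^ 2 : ℝ) : ℂ) ≠ 0 := by
      exact_mod_cast (pow_pos h4 2).ne'
    rw [Complex.ofReal_add, Complex.ofReal_one, Complex.ofReal_inv, mul_add, mul_one, ← h7, mul_inv]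
    have h9 : a 0 ^ k ≠ 0 := pow_ne_zero _ (h0 0)
    rw [← mul_assoc, mul_inv_cancel₀ h9, one_mul]
  rw [h3, h5, norm_mul, Complex.norm_real, Real.norm_of_nonneg (by positivity)] at hk
  have h6 : ‖a 0 ^ k‖ * (1 + (‖a 0 ^ k‖ ^ 2)⁻¹) = ‖a 0 ^ k‖ + ‖a 0 ^ k‖⁻¹ := by
    field_simp
  rw [h6] at hk
  linarith [two_le_add_inv h4]

/-- the parameters of the adjoint lift -/
noncomputable def adj (a : Fin 2 → ℂ) : Fin 3 → ℂ := ![a 0 / a 1, 1, a 1 / a 0]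

/-- the trace of a power of the adjoint lift of a non-tempered parameter -/
theorem temp_adj {a : Fin 2 → ℂ} (h0 : ∀ i, a i ≠ 0)
    (hu : ∃ τ : Equiv.Perm (Fin 2), ∀ i, a (τ i) = ((starRingEnd ℂ) (a i))⁻¹) {k : ℕ}
    (hk : ‖∑ i, adj a i ^ k‖ < 3) : ∀ i, ‖a i‖ = 1 := by
  intro i
  by_contra hi
  obtain ⟨h1, h2⟩ := other hu h0 hi
  have h4 : 0 < ‖a 0‖ := norm_pos_iff.2 (h0 0)
  have h5 : a 0 / a 1 = ((‖a 0‖ ^ 2 : ℝ) : ℂ) := by
    rw [h2, div_inv_eq_mul, Complex.mul_conj, Complex.normSq_eq_norm_sq]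
  have h6 : a 1 / a 0 = (((‖a 0‖ ^ 2)⁻¹ : ℝ) : ℂ) := by
    rw [Complex.ofReal_inv, ← h5, inv_div]
  have h7 : ∑ i, adj a i ^ k = (((‖a 0‖ ^ 2) ^ k + 1 + ((‖a 0‖ ^ 2) ^ k)⁻¹ : ℝ) : ℂ) := by
    have e0 : adj a 0 = a 0 / a 1 := rfl
    have e1 : adj a 1 = 1 := rfl
    have e2 : adj a 2 = a 1 / a 0 := rfl
    rw [Fin.sum_univ_three, e0, e1, e2, one_pow, h5, h6]
    push_cast
    rw [inv_pow]
  have h8 : 0 < (‖a 0‖ ^ 2) ^ k := by positivity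
  rw [h7, Complex.norm_real, Real.norm_of_nonneg (by positivity)] at hk
  linarith [two_le_add_inv h8]

/-- the parameters of the twisted symmetric fourth power lift -/
noncomputable def four (a : Fin 2 → ℂ) : Fin 5 → ℂ :=
  ![(a 0 / a 1) ^ 2, a 0 / a 1, 1, a 1 / a 0, (a 1 / a 0) ^ 2]

/-- the trace of a power of the symmetric fourth power lift of a non-tempered parameter -/
theorem temp_four {a : Fin 2 → ℂ} (h0 : ∀ i, a i ≠ 0)
    (hu : ∃ τ : Equiv.Perm (Fin 2), ∀ i, a (τ i) = ((starRingEnd ℂ) (a i))⁻¹) {k : ℕ}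
    (hk : ‖∑ i, four a i ^ k‖ < 5) : ∀ i, ‖a i‖ = 1 := by
  intro i
  by_contra hi
  obtain ⟨h1, h2⟩ := other hu h0 hi
  have h4 : 0 < ‖a 0‖ := norm_pos_iff.2 (h0 0)
  have h5 : a 0 / a 1 = ((‖a 0‖ ^ 2 : ℝ) : ℂ) := by
    rw [h2, div_inv_eq_mul, Complex.mul_conj, Complex.normSq_eq_norm_sq]
  have h6 : a 1 / a 0 = (((‖a 0‖ ^ 2)⁻¹ : ℝ) : ℂ) := by
    rw [Complex.ofReal_inv, ← h5, inv_div]
  set y : ℝ := (‖a 0‖ ^ 2) ^ k with hy
  have h8 : 0 < y := by positivity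
  have h7 : ∑ i, four a i ^ k = ((y ^ 2 + y + 1 + y⁻¹ + (y⁻¹) ^ 2 : ℝ) : ℂ) := by
    have e0 : four a 0 = (a 0 / a 1) ^ 2 := rfl
    have e1 : four a 1 = a 0 / a 1 := rfl
    have e2 : four a 2 = 1 := rfl
    have e3 : four a 3 = a 1 / a 0 := rfl
    have e4 : four a 4 = (a 1 / a 0) ^ 2 := rfl
    have h9 : (a 0 / a 1) ^ k = (y : ℂ) := by
      rw [h5, hy]
      push_cast
      rfl
    have h10 : (a 1 / a 0) ^ k = ((y⁻¹ : ℝ) : ℂ) := by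
      rw [h6, hy]
      push_cast
      rw [inv_pow]
    rw [Fin.sum_univ_five, e0, e1, e2, e3, e4, one_pow, pow_right_comm, pow_right_comm (a 1 / a 0), h9, h10]
    push_cast
    ring
  have h9 : 0 < y⁻¹ := inv_pos.2 h8
  have h10 := two_le_add_inv h8
  have h11 : y * y⁻¹ = 1 := mul_inv_cancel₀ h8.ne'
  rw [h7, Complex.norm_real, Real.norm_of_nonneg (by positivity)] at hk
  nlinarith [sq_nonneg (y - y⁻¹)]

end Pool.Agent.Y725.UG
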