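import Pool.Agent.Y725.UG.Gen

/-! Products of entire functions with functional equations. -/

set_option autoImplicit false

namespace Pool.Agent.Y725.UG

open Pool.Agent.TH949.LT
open Complex

variable {N N' : ℕ} {κ : Fin N → ℂ} {κ' : Fin N' → ℂ} {Q Q' : ℝ} {F F' : ℂ → ℂ}

theorem append_conj (κ : Fin N → ℂ) (κ' : Fin N' → ℂ) :
    (fun j => (starRingEnd ℂ) (Fin.append κ κ' j)) =
      Fin.append (fun j => (starRingEnd ℂ) (κ j)) (fun j => (starRingEnd ℂ) (κ' j)) := by
  funext j
  refine Fin.addCases (fun i => ?_) (fun i => ?_) j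
  · simp only [Fin.append_left]
  · simp only [Fin.append_right]

theorem ldata_mul (h : LData N κ Q F) (h' : LData N' κ' Q' F') :
    LData (N + N') (Fin.append κ κ') (Q * Q') (fun s => F s * F' s) where
  one_le := one_le_mul_of_one_le_of_one_le h.one_le h'.one_le
  conj := by
    rw [append_conj, Fin.univ_val_map, Fin.univ_val_map, List.ofFn_fin_append, List.ofFn_fin_append,
      ← Multiset.coe_add, ← Multiset.coe_add, ← Fin.univ_val_map, ← Fin.univ_val_map, ← Fin.univ_val_map,
      ← Fin.univ_val_map, h.conj, h'.conj]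
  re := fun j => by
    refine Fin.addCases (fun i => ?_) (fun i => ?_) j
    · rw [Fin.append_left]
      exact h.re i
    · rw [Fin.append_right]
      exact h'.re i
  hF := h.hF.mul h'.hF
  growth := fun a b => by
    obtain ⟨C, A, hA⟩ := h.growth a b
    obtain ⟨C', A', hA'⟩ := h'.growth a b
    refine ⟨C * C', A + A', fun s h1 h2 => ?_⟩
    have h3 := hA s h1 h2
    have h4 := hA' s h1 h2
    rw [norm_mul]
    calc ‖F s‖ * ‖F' s‖ ≤ (C * (1 + |s.im|) ^ A) * (C' * (1 + |s.im|) ^ A') :=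
          mul_le_mul h3 h4 (norm_nonneg _) ((norm_nonneg _).trans h3)
      _ = _ := by ring
  fe := by
    obtain ⟨Ξ, ω, hω, hΞ, h1, h2⟩ := h.fe
    obtain ⟨Ξ', ω', hω', hΞ', h1', h2'⟩ := h'.fe
    have hQ : 0 < Q := by linarith [h.one_le]
    have hQ' : 0 < Q' := by linarith [h'.one_le]
    refine ⟨fun s => Ξ s * Ξ' s, ω * ω', by rw [norm_mul, hω, hω', mul_one], hΞ.mul hΞ', fun s hs => ?_,
      fun s => ?_⟩
    · simp only
      rw [h1 s hs, h1' s hs, Fin.prod_univ_add]
      simp only [Fin.append_left, Fin.append_right]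
      rw [Complex.ofReal_mul, Complex.mul_cpow_ofReal_nonneg hQ.le hQ'.le]
      ring
    · simp only
      rw [h2 s, h2' s]
      ring

theorem pk_append (κ : Fin N → ℂ) (κ' : Fin N' → ℂ) : PK (Fin.append κ κ') = PK κ * PK κ' := by
  unfold PK
  rw [Fin.prod_univ_add]
  simp only [Fin.append_left, Fin.append_right]

theorem ldata_one : LData 0 (fun i : Fin 0 => i.elim0) 1 (fun _ => 1) where
  one_le := le_rfl
  conj := by simp
  re := fun j => j.elim0
  hF := differentiable_const _
  growth := fun a b => ⟨1, 0, fun s _ _ => by simp⟩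
  fe := ⟨fun _ => 1, 1, by simp, differentiable_const _, fun s _ => by simp, fun s => by simp⟩

/-- the product of a finite family -/
theorem ldata_prod (N : ℕ) : ∀ (m : ℕ) (κ : Fin m → Fin N → ℂ) (Q : Fin m → ℝ) (F : Fin m → ℂ → ℂ),
    (∀ i, LData N (κ i) (Q i) (F i)) →
    ∃ κ' : Fin (m * N) → ℂ, LData (m * N) κ' (∏ i, Q i) (fun s => ∏ i, F i s) ∧
      PK κ' = ∏ i, PK (κ i) ∧ ((∃ i j, κ i j = 0) → ∃ j, κ' j = 0) := by
  intro m
  induction m with
  | zero =>
    intro κ Q F _
    have e : 0 * N = 0 := Nat.zero_mul N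
    rw [e]
    refine ⟨fun i : Fin 0 => i.elim0, ?_, ?_, ?_⟩
    · simpa using ldata_one
    · simp [PK]
    · rintro ⟨i, -⟩
      exact i.elim0
  | succ m ih =>
    intro κ Q F h
    obtain ⟨κ', h1, h2, h3⟩ := ih (fun i => κ i.castSucc) (fun i => Q i.castSucc) (fun i => F i.castSucc)
      (fun i => h i.castSucc)
    have e : (m + 1) * N = m * N + N := Nat.succ_mul m N
    rw [e]
    refine ⟨Fin.append κ' (κ (Fin.last m)), ?_, ?_, ?_⟩
    · have h4 := ldata_mul h1 (h (Fin.last m))
      rw [Fin.prod_univ_castSucc]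
      convert h4 using 2
      rw [Fin.prod_univ_castSucc]
    · rw [pk_append, h2, Fin.prod_univ_castSucc]
    · rintro ⟨i, j, hij⟩
      refine Fin.lastCases (motive := fun i => κ i j = 0 → _) ?_ (fun i => ?_) i hij
      · intro h4
        exact ⟨Fin.natAdd _ j, by rw [Fin.append_right]; exact h4⟩
      · intro h4
        obtain ⟨l, hl⟩ := h3 ⟨i, j, h4⟩
        exact ⟨Fin.castAdd _ l, by rw [Fin.append_left]; exact hl⟩

end Pool.Agent.Y725.UG
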